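import Mathlib

/-!
# Project ND: hereditary discrepancy of definable set systems in nowhere dense classes

Definitions.
-/

set_option autoImplicit false

namespace Pool.Agent.N627.ND

variable {V : Type}

/-! ### Graphs -/

/-- `G` contains (as a subgraph) the graph obtained from the complete graph with `t` vertices by
replacing every edge by a path with `r` inner vertices: the vertices `v i` are the old vertices,
`P i j 0 = v i, P i j 1, …, P i j (r + 1) = v j` is the path for the edge `i < j`. -/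
def HasSub (G : SimpleGraph V) (r t : ℕ) : Prop :=
  ∃ (v : Fin t → V) (P : Fin t → Fin t → ℕ → V), Function.Injective v ∧
    (∀ i j, i < j → P i j 0 = v i ∧ P i j (r + 1) = v j ∧
      ∀ a, a ≤ r → G.Adj (P i j a) (P i j (a + 1))) ∧
    (∀ i j a k, i < j → 1 ≤ a → a ≤ r → P i j a ≠ v k) ∧
    (∀ i j k l a b, i < j → k < l → 1 ≤ a → a ≤ r → 1 ≤ b → b ≤ r → P i j a = P k l b →
      i = k ∧ j = l ∧ a = b)

/-- for every `r`, the graph does not contain the subdivided complete graph with `τ r` vertices -/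
def Flat (τ : ℕ → ℕ) (G : SimpleGraph V) : Prop := ∀ r, ¬ HasSub G r (τ r)

/-- vertices `v i` and lazy walks `P i j` of length `R` from `v i` to `v j` (`i < j`) such that
`P i j` and `P k l` have no common vertex if `i < j < k < l` -/
def Link (G : SimpleGraph V) (R t : ℕ) : Prop :=
  ∃ (v : Fin t → V) (P : Fin t → Fin t → ℕ → V),
    (∀ i j, i < j → P i j 0 = v i ∧ P i j R = v j ∧
      ∀ a, a < R → P i j a = P i j (a + 1) ∨ G.Adj (P i j a) (P i j (a + 1))) ∧
    (∀ i j k l, i < j → j < k → k < l → ∀ a b, a ≤ R → b ≤ R → P i j a ≠ P k l b)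

/-- no large links: the form in which nowhere density is used -/
def Ex (μ : ℕ → ℕ) (G : SimpleGraph V) : Prop := ∀ R, ¬ Link G R (μ R)

/-- the edges of `G` inside the ball of radius `R` around `c` -/
def ball (G : SimpleGraph V) (c : V) (R : ℕ) : SimpleGraph V where
  Adj x y := G.Adj x y ∧ G.edist c x ≤ R ∧ G.edist c y ≤ R
  symm := ⟨fun _ _ h => ⟨h.1.symm, h.2.2, h.2.1⟩⟩
  loopless := ⟨fun _ h => G.loopless.irrefl _ h.1⟩

/-- the edges of `G` which avoid the vertices `w i` -/
def del (G : SimpleGraph V) {s : ℕ} (w : Fin s → V) : SimpleGraph V where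
  Adj x y := G.Adj x y ∧ (∀ i, x ≠ w i) ∧ ∀ i, y ≠ w i
  symm := ⟨fun _ _ h => ⟨h.1.symm, h.2.2, h.2.1⟩⟩
  loopless := ⟨fun _ h => G.loopless.irrefl _ h.1⟩

/-- the splitter game of radius `R` with `s` deletions per round ends after `l` rounds -/
def Rk (R s : ℕ) : ℕ → SimpleGraph V → Prop
  | 0, G => G = ⊥
  | l + 1, G => ∀ c, ∃ w : Fin s → V, Rk R s l (del (ball G c R) w)

/-- a `ρ`-shallow model of `H` in `G`: disjoint sets `B x` for the vertices, disjoint sets `Q e` for
the edges, disjoint from the sets `B x`, and for adjacent `x`, `y` a walk of length at most `ρ`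
between the centres inside `B x ∪ Q {x, y} ∪ B y` -/
structure Model {X : Type} (H : SimpleGraph X) (G : SimpleGraph V) (ρ : ℕ) where
  c : X → V
  B : X → Set V
  Q : Sym2 X → Set V
  c_mem : ∀ x, c x ∈ B x
  B_disj : ∀ x y, x ≠ y → Disjoint (B x) (B y)
  Q_disj : ∀ e f, e ≠ f → Disjoint (Q e) (Q f)
  BQ_disj : ∀ x e, Disjoint (B x) (Q e)
  walk : ∀ x y, H.Adj x y → ∃ p : G.Walk (c x) (c y), p.length ≤ ρ ∧
    ∀ z ∈ p.support, z ∈ B x ∪ Q s(x, y) ∪ B y

/-! ### Types -/

/-- the distances at most `d` between `b` and the entries of `z` -/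
def dpat (G : SimpleGraph V) (d : ℕ) {n : ℕ} (z : Fin n → V) (b : V) : Fin n → Fin (d + 1) → Prop :=
  fun i e => G.edist (z i) b ≤ (e : ℕ)

/-- the tuple `z b` -/
def ap {n : ℕ} (z : Fin n → V) (b : V) : Fin (n + 1) → V := Fin.snoc (α := fun _ => V) z b

/-- the plain types of rank `j` of tuples of length `n` in graphs with colours in `K` -/
def OT (K : Type) : ℕ → ℕ → Type
  | 0, n => (Fin n → K) × (Fin n → Fin n → Prop) × (Fin n → Fin n → Prop)
  | j + 1, n => OT K j n × Set ((Fin n → Fin (6 ^ (j + 1) + 1) → Prop) × OT K j (n + 1))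

/-- the plain type of rank `j` of the tuple `z` -/
def O {K : Type} (G : SimpleGraph V) (κ : V → K) : (j n : ℕ) → (Fin n → V) → OT K j n
  | 0, _, z => (fun i => κ (z i), fun i k => z i = z k, fun i k => G.Adj (z i) (z k))
  | j + 1, n, z => (O G κ j n z, {p | ∃ b, p = (dpat G (6 ^ (j + 1)) z b, O G κ j (n + 1) (ap z b))})

/-- there are `Q + 2` points in `S` with pairwise distances more than `2 ρ` -/
def Wide (G : SimpleGraph V) (ρ Q : ℕ) (S : Set V) : Prop :=
  ∃ x : Fin (Q + 2) → V, (∀ i, x i ∈ S) ∧ ∀ i k, i ≠ k → ((2 * ρ : ℕ) : ℕ∞) < G.edist (x i) (x k)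

theorem exists_cen [Nonempty V] (G : SimpleGraph V) (ρ Q : ℕ) (S : Set V) :
    ∃ c : Fin (Q + 1) → V, ¬ Wide G ρ Q S → ∀ x ∈ S, ∃ i, G.edist x (c i) ≤ ((2 * ρ : ℕ) : ℕ∞) := by
  classical
  by_contra hcon
  push Not at hcon
  have hW : ¬ Wide G ρ Q S := (hcon fun _ => Classical.arbitrary V).1
  apply hW
  have key : ∀ m, m ≤ Q + 2 → ∃ x : Fin m → V, (∀ i, x i ∈ S) ∧
      ∀ i k, i ≠ k → ((2 * ρ : ℕ) : ℕ∞) < G.edist (x i) (x k) := by
    intro m
    induction m with
    | zero => exact fun _ => ⟨fun i => i.elim0, fun i => i.elim0, fun i => i.elim0⟩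
    | succ m ih =>
      intro hm
      obtain ⟨x, h1, h2⟩ := ih (by omega)
      let c : Fin (Q + 1) → V := fun i => if h : (i : ℕ) < m then x ⟨i, h⟩ else Classical.arbitrary V
      obtain ⟨-, y, hy, hy2⟩ := hcon c
      have hxy : ∀ i : Fin m, ((2 * ρ : ℕ) : ℕ∞) < G.edist y (x i) := by
        intro i
        have h3 := hy2 ⟨i, by omega⟩
        have h4 : c ⟨i, by omega⟩ = x i := by
          simp [c]
        rwa [h4] at h3
      refine ⟨Fin.snoc (α := fun _ => V) x y, fun i => ?_, fun i k hik => ?_⟩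
      · refine Fin.lastCases ?_ (fun i => ?_) i
        · simpa using hy
        · simpa using h1 i
      · revert hik
        refine Fin.lastCases ?_ (fun i => ?_) i <;> refine Fin.lastCases ?_ (fun k => ?_) k
        · intro h
          exact absurd rfl h
        · intro _
          simpa using hxy k
        · intro _
          rw [SimpleGraph.edist_comm]
          simpa using hxy i
        · intro h
          have h5 : i ≠ k := fun e => h (by rw [e])
          simpa using h2 i k h5
  exact key (Q + 2) le_rfl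

/-- the centres of `S`: every point of `S` has distance at most `2 ρ` to one of them if `S` is not
wide -/
noncomputable def cen [Nonempty V] (G : SimpleGraph V) (ρ Q : ℕ) (S : Set V) : Fin (Q + 1) → V :=
  (exists_cen G ρ Q S).choose

open Classical in
/-- the number of a centre near `b` (zero if there is none) -/
noncomputable def own [Nonempty V] (G : SimpleGraph V) (ρ Q : ℕ) (S : Set V) (b : V) :
    Fin (Q + 1) :=
  if h : ¬ Wide G ρ Q S ∧ b ∈ S then ((exists_cen G ρ Q S).choose_spec h.1 b h.2).choose else 0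

/-- the fine types of rank `j` of tuples of length `n` -/
def TT (K : Type) (Q : ℕ) : ℕ → ℕ → Type
  | 0, n => (Fin n → K) × (Fin n → Fin n → Prop) × (Fin n → Fin n → Prop)
  | j + 1, n => TT K Q j n × (Fin n → TT K Q j 1 → Fin (Q + 1) → Fin (3 * 6 ^ (j + 1) + 1) → Prop) ×
      Set ((Fin n → Fin (6 ^ (j + 1) + 1) → Prop) × Fin (Q + 1) × TT K Q j (n + 1))

/-- the fine type of rank `j` of the tuple `z` -/
noncomputable def T [Nonempty V] {K : Type} (G : SimpleGraph V) (κ : V → K) (Q : ℕ) :
    (j n : ℕ) → (Fin n → V) → TT K Q j n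
  | 0, _, z => (fun i => κ (z i), fun i k => z i = z k, fun i k => G.Adj (z i) (z k))
  | j + 1, n, z =>
    (T G κ Q j n z,
      fun i θ q e => ¬ Wide G (6 ^ (j + 1)) Q {x | T G κ Q j 1 (fun _ => x) = θ} ∧
        G.edist (z i) (cen G (6 ^ (j + 1)) Q {x | T G κ Q j 1 (fun _ => x) = θ} q) ≤ (e : ℕ),
      {p | ∃ b, p = (dpat G (6 ^ (j + 1)) z b,
        own G (6 ^ (j + 1)) Q {x | T G κ Q j 1 (fun _ => x) = T G κ Q j 1 (fun _ => b)} b,
        T G κ Q j (n + 1) (ap z b))})

/-- the number of the own centre of `b` for the step from rank `j + 1` to rank `j` -/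
noncomputable def ow [Nonempty V] {K : Type} (G : SimpleGraph V) (κ : V → K) (Q j : ℕ) (b : V) :
    Fin (Q + 1) :=
  own G (6 ^ (j + 1)) Q {x | T G κ Q j 1 (fun _ => x) = T G κ Q j 1 (fun _ => b)} b

/-! ### Sparse factorizations -/

/-- the matrix `M` is a product of two matrices, the rows of the first have `ℓ¹`-norm at most `s`,
the columns of the second have `ℓ¹`-norm at most `t` -/
def Sp {A B : Type} (s t : ℝ) (M : A → B → ℝ) : Prop :=
  ∃ (Λ : Type) (_ : Fintype Λ) (P : A → Λ → ℝ) (Q : Λ → B → ℝ),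
    (∀ a, ∑ l, |P a l| ≤ s) ∧ (∀ b, ∑ l, |Q l b| ≤ t) ∧ ∀ a b, M a b = ∑ l, P a l * Q l b

open Classical in
/-- the same for the indicator function of a relation -/
noncomputable def SpP {A B : Type} (s : ℝ) (X : A → B → Prop) : Prop :=
  Sp s s fun a b => if X a b then (1 : ℝ) else 0

/-! ### Formulas and discrepancy -/

/-- first-order formulas in the language of graphs with the free variables `x 1, …, x k` and
`y 1, …, y l` -/
abbrev Fm (k l : ℕ) : Type := FirstOrder.Language.graph.Formula (Fin k ⊕ Fin l)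

/-- `G` satisfies `φ(a, b)` -/
def Sat {k l : ℕ} (G : SimpleGraph V) (φ : Fm k l) (a : Fin k → V) (b : Fin l → V) : Prop :=
  @FirstOrder.Language.Formula.Realize FirstOrder.Language.graph V G.structure _ φ (Sum.elim a b)

/-- the union of the sets `{a | G ⊨ φ(a, b)}` -/
def Un {k l : ℕ} (G : SimpleGraph V) (φ : Fm k l) : Set (Fin k → V) := {a | ∃ b, Sat G φ a b}

open Classical in
/-- the hereditary discrepancy of the set system of the sets `{a | G ⊨ φ(a, b)}` is at most `D` -/
def HerdiscLE {k l : ℕ} (G : SimpleGraph V) (φ : Fm k l) (D : ℝ) : Prop :=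
  ∀ X : Finset (Fin k → V), ∃ χ : (Fin k → V) → ℤ, (∀ a, χ a = 1 ∨ χ a = -1) ∧
    ∀ b : Fin l → V, |((∑ a ∈ X.filter (fun a => Sat G φ a b), χ a : ℤ) : ℝ)| ≤ D

/-- classes of finite graphs -/
abbrev Cls : Type := (n : ℕ) → SimpleGraph (Fin n) → Prop

/-- closed under subgraphs (and isomorphisms) -/
def Monotone (C : Cls) : Prop :=
  ∀ (m n : ℕ) (G : SimpleGraph (Fin m)) (G' : SimpleGraph (Fin n)), C n G' →
    (∃ f : Fin m → Fin n, Function.Injective f ∧ ∀ u v, G.Adj u v → G'.Adj (f u) (f v)) → C m G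

/-- for every `r` there is `t` such that no graph in `C` contains the `r`-subdivision of the complete
graph with `t` vertices as a subgraph -/
def NowhereDense (C : Cls) : Prop := ∀ r, ∃ t, ∀ (n : ℕ) (G : SimpleGraph (Fin n)), C n G →
  ¬ HasSub G r t

end Pool.Agent.N627.ND
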