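import Pool.Agent.N627.ND.Def

/-!
# Project ND: the statements of the parts of the proof
-/

set_option autoImplicit false

namespace Pool.Agent.N627.ND

variable {V : Type}

/-! ### A: links give subdivided complete graphs -/

/-- infinite version -/
def S_A1 : Prop := ∀ (V : Type) (G : SimpleGraph V) (R : ℕ) (v : ℕ → V) (P : ℕ → ℕ → ℕ → V),
  (∀ i j, i < j → P i j 0 = v i ∧ P i j R = v j ∧
    ∀ a, a < R → P i j a = P i j (a + 1) ∨ G.Adj (P i j a) (P i j (a + 1))) →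
  (∀ i j k l, i < j → j < k → k < l → ∀ a b, a ≤ R → b ≤ R → P i j a ≠ P k l b) →
  ∃ r, ∀ t, HasSub G r t

/-- finite version, from `S_A1` by compactness -/
def S_A : Prop := ∀ τ : ℕ → ℕ, ∃ μ : ℕ → ℕ, ∀ (V : Type) (G : SimpleGraph V), Flat τ G → Ex μ G

/-! ### B: the splitter game -/

def S_B : Prop := ∀ (μ : ℕ → ℕ) (R : ℕ), ∃ s l : ℕ, ∀ (V : Type) (G : SimpleGraph V),
  Ex μ G → Rk R s l G

/-! ### C, D: the number of edges -/

/-- selection of few vertices -/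
def S_C1 : Prop := ∀ (V : Type) [Fintype V] [DecidableEq V] (d : ℕ) (δ : ℝ) (N : V → Finset V)
  (L : V → Finset (Finset V)), 2 ≤ d → 0 ≤ δ → (∀ v, (N v).card = d ∧ v ∉ N v) →
  (∀ v, ∀ e ∈ L v, e ⊆ N v ∧ e.card = 2) → (∀ v, δ * (d : ℝ) ^ 2 ≤ ((L v).card : ℝ)) →
  ∃ X Y : Finset V, Disjoint X Y ∧ (∀ v ∈ Y, ∃ e ∈ L v, e ⊆ X) ∧
    δ * ((d : ℝ) * (X.card : ℝ) + (Fintype.card V : ℝ)) ≤ 8 * (Y.card : ℝ)

/-- graphs with large minimum degree have denser shallow minors -/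
def S_C2 : Prop := ∀ t : ℕ, 2 ≤ t → ∃ C : ℝ, 0 < C ∧ ∀ (V : Type) [Fintype V] [Nonempty V]
  (G : SimpleGraph V) (d : ℕ), t ≤ d → ¬ Link G 2 t → (∀ v, d ≤ (G.neighborSet v).ncard) →
  ∃ (m : ℕ) (H : SimpleGraph (Fin m)), Nonempty (Model H G 2) ∧
    (m : ℝ) * (d : ℝ) ≤ C * (Fintype.card V : ℝ) ∧
    (Fintype.card V : ℝ) ≤ C * (H.edgeSet.ncard : ℝ)

/-- models transport links -/
def S_D : Prop := ∀ (X V : Type) (H : SimpleGraph X) (G : SimpleGraph V) (ρ : ℕ), 1 ≤ ρ →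
  Nonempty (Model H G ρ) → ∀ R t, Link H R t → Link G (ρ * R) t

/-- bound for the number of edges with exponent `1 + a` -/
def DensB (a : ℝ) : Prop := ∀ μ : ℕ → ℕ, ∃ C : ℝ, ∀ (V : Type) [Fintype V] (G : SimpleGraph V),
  Ex μ G → (G.edgeSet.ncard : ℝ) ≤ C * (Fintype.card V : ℝ) ^ (1 + a)

def S_C : Prop := ∀ a : ℝ, 0 < a → DensB a

/-! ### E, F, G: covers -/

/-- some vertex of `S` is separated from the others by few vertices -/
def S_E : Prop := ∀ (μ : ℕ → ℕ) (r : ℕ) (ε : ℝ), 0 < ε → ∃ C : ℝ, ∀ (V : Type) [Fintype V]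
  (G : SimpleGraph V), Ex μ G → ∀ S : Finset V, S.Nonempty → ∃ v ∈ S, ∃ U : Finset V, v ∉ U ∧
    (U.card : ℝ) ≤ C * (S.card : ℝ) ^ ε ∧
    ∀ s ∈ S, s ≠ v → ∀ p : G.Walk v s, p.length ≤ r → ∃ x ∈ p.support, x ∈ U

/-- the weakly `r`-reachable vertices -/
def WR (G : SimpleGraph V) (f : V → ℕ) (r : ℕ) (v : V) : Set V :=
  {u | ∃ p : G.Walk v u, p.length ≤ r ∧ ∀ x ∈ p.support, f u ≤ f x}

def S_F : Prop := ∀ (μ : ℕ → ℕ) (r : ℕ) (ε : ℝ), 0 < ε → ∃ C : ℝ, ∀ (V : Type) [Fintype V]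
  (G : SimpleGraph V), Ex μ G → ∃ f : V → ℕ, Function.Injective f ∧
    ∀ v, ((WR G f r v).ncard : ℝ) ≤ C * (Fintype.card V : ℝ) ^ ε

def S_G : Prop := ∀ (μ : ℕ → ℕ) (r : ℕ) (ε : ℝ), 0 < ε → ∃ C : ℝ, ∀ (V : Type) [Fintype V]
  (G : SimpleGraph V), Ex μ G → ∀ W : Finset V, ∃ (c : V → V) (Z : V → Finset V),
    (∀ b ∈ W, G.edist b (c b) ≤ r) ∧
    (∀ a ∈ W, ∀ b ∈ W, G.edist a b ≤ r → c b ∈ Z a) ∧
    ∀ a, ((Z a).card : ℝ) ≤ C * (W.card : ℝ) ^ ε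

/-! ### Types -/

def S_FIN : Prop := ∀ (K : Type) [Finite K] (Q j n : ℕ), Finite (OT K j n) ∧ Finite (TT K Q j n)

/-- reindexing of tuples -/
def S_RI : Prop := ∀ (V : Type) [Nonempty V] (K : Type) (G : SimpleGraph V) (κ : V → K)
  (Q j n m : ℕ) (z z' : Fin n → V) (f : Fin m → Fin n),
  (O G κ j n z = O G κ j n z' →
    O G κ j m (fun i => z (f i)) = O G κ j m (fun i => z' (f i))) ∧
  (T G κ Q j n z = T G κ Q j n z' →
    T G κ Q j m (fun i => z (f i)) = T G κ Q j m (fun i => z' (f i)))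

/-- fine types refine plain types -/
def S_TO : Prop := ∀ (V : Type) [Nonempty V] (K : Type) (G : SimpleGraph V) (κ : V → K)
  (Q j n : ℕ) (z z' : Fin n → V), T G κ Q j n z = T G κ Q j n z' → O G κ j n z = O G κ j n z'

/-- the fine type of a tuple is determined by the fine types of its distant pieces -/
def S_CO : Prop := ∀ (V : Type) [Nonempty V] (K : Type) (G : SimpleGraph V) (κ : V → K)
  (Q j n : ℕ), n + j ≤ Q + 1 → ∀ (z z' : Fin n → V) (π : Fin n → ℕ),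
  (∀ i k, π i ≠ π k → ((6 * 6 ^ j : ℕ) : ℕ∞) < G.edist (z i) (z k) ∧
    ((6 * 6 ^ j : ℕ) : ℕ∞) < G.edist (z' i) (z' k)) →
  (∀ i, T G κ Q j n (fun k => if π k = π i then z k else z i) =
    T G κ Q j n (fun k => if π k = π i then z' k else z' i)) →
  T G κ Q j n z = T G κ Q j n z'

/-- the colours of the local structure -/
abbrev KL (K : Type) (Q q R : ℕ) : Type :=
  ((j : Fin (q + 1)) → TT K Q j 1) × (Fin (q + 1) → Fin (Q + 1)) × (Fin (R + 1) → Prop)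

noncomputable def κL [Nonempty V] {K : Type} (G : SimpleGraph V) (κ : V → K) (Q q R : ℕ) (c : V) :
    V → KL K Q q R :=
  fun v => (fun j => T G κ Q j 1 (fun _ => v), fun j => ow G κ Q j v,
    fun e => G.edist c v ≤ (e : ℕ))

/-- localization -/
def S_LO : Prop := ∀ (V : Type) [Nonempty V] (K : Type) (G : SimpleGraph V) (κ : V → K)
  (Q q n r R : ℕ) (c : V), n + q ≤ Q + 1 → r + 6 ^ (q + 2) ≤ R → ∀ z z' : Fin n → V,
  (∀ i, G.edist c (z i) ≤ r) → (∀ i, G.edist c (z' i) ≤ r) →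
  O (ball G c R) (κL G κ Q q R c) q n z = O (ball G c R) (κL G κ Q q R c) q n z' →
  T G κ Q q n z = T G κ Q q n z'

/-- the colours after the deletion of vertices -/
abbrev KD (K : Type) (s E : ℕ) : Type := K × (Fin s → Prop) × (Fin s → Fin (E + 1) → Prop)

def κD {K : Type} (H : SimpleGraph V) (κ : V → K) {s : ℕ} (w : Fin s → V) (E : ℕ) :
    V → KD K s E :=
  fun v => (κ v, fun i => v = w i, fun i e => H.edist v (w i) ≤ (e : ℕ))

/-- distances after the deletion of vertices -/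
def S_DD : Prop := ∀ (V : Type) (H : SimpleGraph V) (s : ℕ) (w : Fin s → V) (e : ℕ) (x y : V),
  H.edist x y ≤ e ↔ (del H w).edist x y ≤ e ∨
    ∃ (i : Fin s) (e1 e2 : ℕ), e1 + e2 ≤ e ∧ H.edist x (w i) ≤ e1 ∧ H.edist y (w i) ≤ e2

/-- distances inside balls -/
def S_BD : Prop := ∀ (V : Type) (G : SimpleGraph V) (c x y : V) (r e R : ℕ), G.edist c y ≤ r →
  r + e ≤ R → ((ball G c R).edist x y ≤ e ↔ G.edist x y ≤ e)

/-- deletion of vertices -/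
def S_DE : Prop := ∀ (V : Type) (K : Type) (H : SimpleGraph V) (κ : V → K) (s : ℕ)
  (w : Fin s → V) (E q n : ℕ), 6 ^ q ≤ E → ∀ z z' : Fin n → V,
  O (del H w) (κD H κ w E) q n z = O (del H w) (κD H κ w E) q n z' →
  O H κ q n z = O H κ q n z'

/-- formulas are determined by plain types -/
def S_FM : Prop := ∀ (k l : ℕ) (φ : Fm k l), ∃ q : ℕ, ∀ (V : Type) (G : SimpleGraph V)
  (z z' : Fin (k + l) → V),
  O G (fun _ => ()) q (k + l) z = O G (fun _ => ()) q (k + l) z' →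
  (Sat G φ (fun i => z (Fin.castAdd l i)) (fun i => z (Fin.natAdd k i)) ↔
    Sat G φ (fun i => z' (Fin.castAdd l i)) (fun i => z' (Fin.natAdd k i)))

/-! ### Sparse factorizations -/

/-- relations which depend on one side only, equality -/
def S_SR : Prop := (∀ (A B : Type) (X : A → Prop), SpP 1 (fun (a : A) (_ : B) => X a)) ∧
  (∀ (A B : Type) (X : B → Prop), SpP 1 (fun (_ : A) (b : B) => X b)) ∧
  (∀ (A B V : Type) [Fintype V] (f : A → V) (g : B → V), SpP 1 (fun a b => f a = g b)) ∧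
  ∀ (A B : Type) (X : A → B → Prop) (s s' : ℝ), s ≤ s' → SpP s X → SpP s' X

/-- Boolean combinations -/
def S_SB : Prop := ∀ (A B ι : Type) [Fintype ι] (s : ℝ) (Y : ι → A → B → Prop)
  (X : A → B → Prop), 0 ≤ s → (∀ i, SpP s (Y i)) →
  (∀ a b a' b', (∀ i, Y i a b ↔ Y i a' b') → (X a b ↔ X a' b')) →
  SpP ((2 * (1 + s)) ^ Fintype.card ι) X

/-- gluing along a cover -/
def S_SC : Prop := ∀ (A B V : Type) [Fintype V] (s z : ℝ) (Z : A → Finset V) (c : B → V)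
  (Y : V → A → B → Prop), 0 ≤ s → 1 ≤ z → (∀ a, ((Z a).card : ℝ) ≤ z) → (∀ v, SpP s (Y v)) →
  SpP (z * s) (fun a b => c b ∈ Z a ∧ Y (c b) a b)

/-! ### The recursion -/

/-- sparse distances -/
def DistB (μ : ℕ → ℕ) (R s l E : ℕ) : Prop := ∀ ε : ℝ, 0 < ε → ∃ C : ℝ, ∀ (V : Type) [Fintype V]
  (G : SimpleGraph V), Ex μ G → Rk R s l G → ∀ (A B : Type) [Fintype A] [Fintype B] (x : A → V)
  (y : B → V) (e : ℕ), e ≤ E →
  SpP (C * ((Fintype.card A : ℝ) + (Fintype.card B : ℝ)) ^ ε) (fun a b => G.edist (x a) (y b) ≤ e)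

def S_DI : Prop := ∀ (μ : ℕ → ℕ) (R s l E : ℕ), 2 * E ≤ R → DistB μ R s l E

/-- the tuple with the entries of `x` at the places `σ` and the entries of `y` at the others -/
def mix {n : ℕ} (σ : Fin n → Bool) (x y : Fin n → V) : Fin n → V :=
  fun i => if σ i = true then x i else y i

/-- sparse plain types -/
def MainB (μ : ℕ → ℕ) (R s l q n : ℕ) : Prop := ∀ (K : Type) [Finite K] (ε : ℝ), 0 < ε →
  ∃ C : ℝ, ∀ (V : Type) [Fintype V] [Nonempty V] (G : SimpleGraph V) (κ : V → K), Ex μ G →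
  Rk R s l G → ∀ (A B : Type) [Fintype A] [Fintype B] (σ : Fin n → Bool) (x : A → Fin n → V)
  (y : B → Fin n → V) (Θ : Set (OT K q n)),
  SpP (C * ((Fintype.card A : ℝ) + (Fintype.card B : ℝ)) ^ ε)
    (fun a b => O G κ q n (mix σ (x a) (y b)) ∈ Θ)

/-- from near pairs and pieces to plain types -/
def S_M1 : Prop := ∀ (K : Type) [Finite K] (q n Q : ℕ), n + q ≤ Q + 1 → ∃ M : ℕ,
  ∀ (V : Type) [Nonempty V] (G : SimpleGraph V) (κ : V → K) (A B : Type) (z : A → B → Fin n → V)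
  (s : ℝ), 0 ≤ s →
  (∀ i k, SpP s (fun a b => G.edist (z a b i) (z a b k) ≤ ((6 * 6 ^ q : ℕ) : ℕ∞))) →
  (∀ (I : Finset (Fin n)) (i : Fin n) (θ : TT K Q q n), i ∈ I → ∃ Y : A → B → Prop, SpP s Y ∧
    ∀ a b, (∀ k ∈ I, G.edist (z a b i) (z a b k) ≤ ((n * (6 * 6 ^ q) : ℕ) : ℕ∞)) →
      (Y a b ↔ T G κ Q q n (fun k => if k ∈ I then z a b k else z a b i) = θ)) →
  ∀ Θ : Set (OT K q n), SpP ((2 * (1 + s)) ^ M) (fun a b => O G κ q n (z a b) ∈ Θ)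

/-- pieces -/
def S_M2 : Prop := ∀ (μ : ℕ → ℕ) (R s l q n Q : ℕ), n + q ≤ Q + 1 → 6 ^ (q + 3) * (n + 1) ≤ R →
  MainB μ R s l q n → ∀ (K : Type) [Finite K] (ε : ℝ), 0 < ε → ∃ C : ℝ, ∀ (V : Type) [Fintype V]
  [Nonempty V] (G : SimpleGraph V) (κ : V → K), Ex μ G → Rk R s (l + 1) G →
  ∀ (A B : Type) [Fintype A] [Fintype B] (σ : Fin n → Bool) (x : A → Fin n → V)
  (y : B → Fin n → V) (I : Finset (Fin n)) (i : Fin n) (θ : TT K Q q n), i ∈ I →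
  ∃ Y : A → B → Prop, SpP (C * ((Fintype.card A : ℝ) + (Fintype.card B : ℝ)) ^ ε) Y ∧
    ∀ a b, (∀ k ∈ I, G.edist (mix σ (x a) (y b) i) (mix σ (x a) (y b) k) ≤
        ((n * (6 * 6 ^ q) : ℕ) : ℕ∞)) →
      (Y a b ↔ T G κ Q q n (fun k => if k ∈ I then mix σ (x a) (y b) k
        else mix σ (x a) (y b) i) = θ)

/-- the recursion -/
def S_MA : Prop := ∀ (μ : ℕ → ℕ) (R s l q n : ℕ), 6 ^ (q + 3) * (n + 1) ≤ R → MainB μ R s l q n

/-! ### Discrepancy -/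

open Classical in
/-- discrepancy from factorizations -/
def S_BF : Prop := ∀ (A B : Type) [Fintype A] (s : ℝ) (X : A → B → Prop), SpP s X →
  ∃ χ : A → ℤ, (∀ a, χ a = 1 ∨ χ a = -1) ∧
    ∀ b, |((∑ a ∈ Finset.univ.filter (fun a => X a b), χ a : ℤ) : ℝ)| ≤ 2 * s ^ 2

open Classical in
/-- set systems with large discrepancy -/
def S_HA : Prop := ∀ k : ℕ, ∃ X : Fin (2 ^ k) → Fin (2 ^ k) → Prop, ∀ χ : Fin (2 ^ k) → ℤ,
  (∀ a, χ a = 1 ∨ χ a = -1) → ∃ b, (2 : ℝ) ^ k ≤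
    9 * ((∑ a ∈ Finset.univ.filter (fun a => X a b), χ a : ℤ) : ℝ) ^ 2

open Classical in
/-- from factorizations of all finite parts to hereditary discrepancy -/
def S_VC : Prop := ∀ 𝒮 : (U W : Type) → (U → W → Prop) → Prop,
  (∀ ε : ℝ, 0 < ε → ∃ C : ℝ, ∀ (U W : Type) (X : U → W → Prop), 𝒮 U W X →
    ∀ (A B : Type) [Fintype A] [Fintype B] (f : A → U) (g : B → W),
    SpP (C * ((Fintype.card A : ℝ) + (Fintype.card B : ℝ)) ^ ε) (fun a b => X (f a) (g b))) →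
  ∀ ε : ℝ, 0 < ε → ∃ C : ℝ, ∀ (U W : Type) (X : U → W → Prop), 𝒮 U W X → ∀ F : Finset U,
    ∃ χ : U → ℤ, (∀ a, χ a = 1 ∨ χ a = -1) ∧
      ∀ w : W, |((∑ a ∈ F.filter (fun a => X a w), χ a : ℤ) : ℝ)| ≤ C * (F.card : ℝ) ^ ε

/-- the converse -/
def S_CV : Prop := ∀ C : Cls, Monotone C →
  (∀ (k l : ℕ) (φ : Fm k l) (ε : ℝ), 0 < ε → ∃ c : ℝ, ∀ (n : ℕ) (G : SimpleGraph (Fin n)),
    C n G → HerdiscLE G φ (c * ((Un G φ).ncard : ℝ) ^ ε)) → NowhereDense C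

/-- the theorem -/
def S_TOP : Prop := ∀ C : Cls, Monotone C → (NowhereDense C ↔
  ∀ (k l : ℕ) (φ : Fm k l) (ε : ℝ), 0 < ε → ∃ c : ℝ, ∀ (n : ℕ) (G : SimpleGraph (Fin n)),
    C n G → HerdiscLE G φ (c * ((Un G φ).ncard : ℝ) ^ ε))

end Pool.Agent.N627.ND
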