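import Pool.Agent.N627.ND.Stm

/-!
# Project ND: finiteness, reindexing, fine types refine plain types
-/

set_option autoImplicit false

namespace Pool.Agent.N627.ND

theorem finOT (K : Type) [Finite K] : ∀ j n : ℕ, Finite (OT K j n) := by
  intro j
  induction j with
  | zero =>
    intro n
    unfold OT
    infer_instance
  | succ j ih =>
    intro n
    have h1 := ih n
    have h2 := ih (n + 1)
    unfold OT
    infer_instance

theorem finTT (K : Type) [Finite K] (Q : ℕ) : ∀ j n : ℕ, Finite (TT K Q j n) := by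
  intro j
  induction j with
  | zero =>
    intro n
    unfold TT
    infer_instance
  | succ j ih =>
    intro n
    have h1 := ih n
    have h2 := ih (n + 1)
    have h3 := ih 1
    unfold TT
    infer_instance

theorem fin : S_FIN := fun K _ Q j n => ⟨finOT K j n, finTT K Q j n⟩

section

variable {V : Type}

/-- reindexing of the extended tuple -/
def fp {n m : ℕ} (f : Fin m → Fin n) : Fin (m + 1) → Fin (n + 1) :=
  Fin.snoc (α := fun _ => Fin (n + 1)) (fun i => (f i).castSucc) (Fin.last n)

theorem ap_fp {n m : ℕ} (z : Fin n → V) (b : V) (f : Fin m → Fin n) :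
    ap (fun i => z (f i)) b = fun i => ap z b (fp f i) := by
  funext i
  refine Fin.lastCases ?_ (fun i => ?_) i
  · simp [ap, fp]
  · simp [ap, fp]

theorem ri_O {K : Type} (G : SimpleGraph V) (κ : V → K) : ∀ (j n m : ℕ) (z z' : Fin n → V)
    (f : Fin m → Fin n), O G κ j n z = O G κ j n z' →
    O G κ j m (fun i => z (f i)) = O G κ j m (fun i => z' (f i)) := by
  intro j
  induction j with
  | zero =>
    intro n m z z' f h
    have h1 := congrArg Prod.fst h
    have h2 := congrArg (fun p => p.2.1) h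
    have h3 := congrArg (fun p => p.2.2) h
    refine Prod.ext ?_ (Prod.ext ?_ ?_)
    · funext i
      exact congrFun h1 (f i)
    · funext i k
      exact congrFun (congrFun h2 (f i)) (f k)
    · funext i k
      exact congrFun (congrFun h3 (f i)) (f k)
  | succ j ih =>
    have key : ∀ (n m : ℕ) (z z' : Fin n → V) (f : Fin m → Fin n),
        O G κ (j + 1) n z = O G κ (j + 1) n z' →
        (O G κ (j + 1) m (fun i => z (f i))).2 ⊆ (O G κ (j + 1) m (fun i => z' (f i))).2 := by
      intro n m z z' f h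
      have h2 := congrArg Prod.snd h
      rintro p ⟨b, rfl⟩
      have h3 : (dpat G (6 ^ (j + 1)) z b, O G κ j (n + 1) (ap z b)) ∈
          (O G κ (j + 1) n z).2 := ⟨b, rfl⟩
      rw [h2] at h3
      obtain ⟨b', h4⟩ := h3
      refine ⟨b', Prod.ext ?_ ?_⟩
      · funext i
        exact congrFun (congrArg Prod.fst h4) (f i)
      · show O G κ j (m + 1) (ap (fun i => z (f i)) b) = O G κ j (m + 1) (ap (fun i => z' (f i)) b')
        rw [ap_fp z b f, ap_fp z' b' f]
        exact ih _ _ _ _ _ (congrArg Prod.snd h4)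
    intro n m z z' f h
    exact Prod.ext (ih _ _ _ _ _ (congrArg Prod.fst h))
      (Set.Subset.antisymm (key _ _ _ _ _ h) (key _ _ _ _ _ h.symm))

theorem ri_T [Nonempty V] {K : Type} (G : SimpleGraph V) (κ : V → K) (Q : ℕ) :
    ∀ (j n m : ℕ) (z z' : Fin n → V) (f : Fin m → Fin n), T G κ Q j n z = T G κ Q j n z' →
    T G κ Q j m (fun i => z (f i)) = T G κ Q j m (fun i => z' (f i)) := by
  intro j
  induction j with
  | zero =>
    intro n m z z' f h
    have h1 := congrArg Prod.fst h
    have h2 := congrArg (fun p => p.2.1) h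
    have h3 := congrArg (fun p => p.2.2) h
    refine Prod.ext ?_ (Prod.ext ?_ ?_)
    · funext i
      exact congrFun h1 (f i)
    · funext i k
      exact congrFun (congrFun h2 (f i)) (f k)
    · funext i k
      exact congrFun (congrFun h3 (f i)) (f k)
  | succ j ih =>
    have key : ∀ (n m : ℕ) (z z' : Fin n → V) (f : Fin m → Fin n),
        T G κ Q (j + 1) n z = T G κ Q (j + 1) n z' →
        (T G κ Q (j + 1) m (fun i => z (f i))).2.2 ⊆
          (T G κ Q (j + 1) m (fun i => z' (f i))).2.2 := by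
      intro n m z z' f h
      have h2 := congrArg (fun p => p.2.2) h
      rintro p ⟨b, rfl⟩
      have h3 : (dpat G (6 ^ (j + 1)) z b, own G (6 ^ (j + 1)) Q
          {x | T G κ Q j 1 (fun _ => x) = T G κ Q j 1 (fun _ => b)} b,
          T G κ Q j (n + 1) (ap z b)) ∈ (T G κ Q (j + 1) n z).2.2 := ⟨b, rfl⟩
      rw [show (T G κ Q (j + 1) n z).2.2 = (T G κ Q (j + 1) n z').2.2 from h2] at h3
      obtain ⟨b', h4⟩ := h3
      refine ⟨b', Prod.ext ?_ (Prod.ext ?_ ?_)⟩
      · funext i
        exact congrFun (congrArg Prod.fst h4) (f i)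
      · exact congrArg (fun p => p.2.1) h4
      · show T G κ Q j (m + 1) (ap (fun i => z (f i)) b) =
          T G κ Q j (m + 1) (ap (fun i => z' (f i)) b')
        rw [ap_fp z b f, ap_fp z' b' f]
        exact ih _ _ _ _ _ (congrArg (fun p => p.2.2) h4)
    intro n m z z' f h
    refine Prod.ext (ih _ _ _ _ _ (congrArg Prod.fst h)) (Prod.ext ?_
      (Set.Subset.antisymm (key _ _ _ _ _ h) (key _ _ _ _ _ h.symm)))
    funext i
    exact congrFun (congrArg (fun p => p.2.1) h) (f i)

end

theorem ri : S_RI := fun _ _ _ G κ Q j n m z z' f =>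
  ⟨ri_O G κ j n m z z' f, ri_T G κ Q j n m z z' f⟩

theorem tto : S_TO := by
  intro V _ K G κ Q j
  induction j with
  | zero =>
    intro n z z' h
    exact h
  | succ j ih =>
    have key : ∀ (n : ℕ) (z z' : Fin n → V), T G κ Q (j + 1) n z = T G κ Q (j + 1) n z' →
        (O G κ (j + 1) n z).2 ⊆ (O G κ (j + 1) n z').2 := by
      intro n z z' h
      have h2 := congrArg (fun p => p.2.2) h
      rintro p ⟨b, rfl⟩
      have h3 : (dpat G (6 ^ (j + 1)) z b, own G (6 ^ (j + 1)) Q
          {x | T G κ Q j 1 (fun _ => x) = T G κ Q j 1 (fun _ => b)} b,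
          T G κ Q j (n + 1) (ap z b)) ∈ (T G κ Q (j + 1) n z).2.2 := ⟨b, rfl⟩
      rw [show (T G κ Q (j + 1) n z).2.2 = (T G κ Q (j + 1) n z').2.2 from h2] at h3
      obtain ⟨b', h4⟩ := h3
      have h5 : dpat G (6 ^ (j + 1)) z b = dpat G (6 ^ (j + 1)) z' b' := congrArg (fun p => p.1) h4
      have h6 : T G κ Q j (n + 1) (ap z b) = T G κ Q j (n + 1) (ap z' b') :=
        congrArg (fun p => p.2.2) h4
      exact ⟨b', Prod.ext h5 (ih _ _ _ h6)⟩
    intro n z z' h
    exact Prod.ext (ih _ _ _ (congrArg Prod.fst h))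
      (Set.Subset.antisymm (key _ _ _ h) (key _ _ _ h.symm))

end Pool.Agent.N627.ND
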