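import Pool.Agent.N627.ND.Stm

/-!
# Project ND: the assembly
-/

set_option autoImplicit false

namespace Pool.Agent.N627.ND

open Finset

open Classical in
theorem forward (hA : S_A) (hB : S_B) (hMA : S_MA) (hFM : S_FM) (hVC : S_VC) (C : Cls)
    (hC : NowhereDense C) (k l : ℕ) (φ : Fm k l) (ε : ℝ) (hε : 0 < ε) :
    ∃ c : ℝ, ∀ (n : ℕ) (G : SimpleGraph (Fin n)), C n G →
      HerdiscLE G φ (c * ((Un G φ).ncard : ℝ) ^ ε) := by
  choose τ hτ using hC
  obtain ⟨μ, hμ⟩ := hA τ
  have hEx : ∀ (n : ℕ) (G : SimpleGraph (Fin n)), C n G → Ex μ G :=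
    fun n G hG => hμ _ G fun r => hτ r n G hG
  obtain ⟨q, hq⟩ := hFM k l φ
  obtain ⟨s, lv, hs⟩ := hB μ (6 ^ (q + 3) * (k + l + 1))
  have hM := hMA μ (6 ^ (q + 3) * (k + l + 1)) s lv q (k + l) le_rfl
  let 𝒮 : (U W : Type) → (U → W → Prop) → Prop := fun U W X =>
    ∃ (V : Type) (_ : Fintype V) (_ : Nonempty V) (G : SimpleGraph V) (fU : U → Fin k → V)
      (fW : W → Fin l → V), Ex μ G ∧ ∀ u w, X u w ↔ Sat G φ (fU u) (fW w)
  have key := hVC 𝒮 (by
    intro ε' hε'
    obtain ⟨c, hc⟩ := hM Unit ε' hε'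
    refine ⟨c, ?_⟩
    rintro U W X ⟨V, _, _, G, fU, fW, hG, hX⟩ A B _ _ f g
    have h1 := hc V G (fun _ => ()) hG (hs V G hG) A B (fun i => decide ((i : ℕ) < k))
      (fun a i => if h : (i : ℕ) < k then fU (f a) ⟨i, h⟩ else Classical.arbitrary V)
      (fun b i => if h : k ≤ (i : ℕ) then fW (g b) ⟨i - k, by omega⟩ else Classical.arbitrary V)
      {θ | ∃ z : Fin (k + l) → V, O G (fun _ => ()) q (k + l) z = θ ∧
        Sat G φ (fun i => z (Fin.castAdd l i)) (fun i => z (Fin.natAdd k i))}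
    have h2 : ∀ a b, (X (f a) (g b) ↔ O G (fun _ => ()) q (k + l)
        (mix (fun i => decide ((i : ℕ) < k))
        (fun i => if h : (i : ℕ) < k then fU (f a) ⟨i, h⟩ else Classical.arbitrary V)
        (fun i => if h : k ≤ (i : ℕ) then fW (g b) ⟨i - k, by omega⟩ else Classical.arbitrary V))
        ∈ {θ | ∃ z : Fin (k + l) → V, O G (fun _ => ()) q (k + l) z = θ ∧
        Sat G φ (fun i => z (Fin.castAdd l i)) (fun i => z (Fin.natAdd k i))}) := by
      intro a b
      set z : Fin (k + l) → V := mix (fun i => decide ((i : ℕ) < k))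
        (fun i => if h : (i : ℕ) < k then fU (f a) ⟨i, h⟩ else Classical.arbitrary V)
        (fun i => if h : k ≤ (i : ℕ) then fW (g b) ⟨i - k, by omega⟩ else Classical.arbitrary V)
        with hz
      have h3 : (fun i => z (Fin.castAdd l i)) = fU (f a) := by
        funext i
        rw [hz]
        unfold mix
        have h4 : ((Fin.castAdd l i : Fin (k + l)) : ℕ) < k := i.2
        simp
      have h4 : (fun i => z (Fin.natAdd k i)) = fW (g b) := by
        funext i
        rw [hz]
        unfold mix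
        simp
      rw [hX, ← h3, ← h4]
      constructor
      · intro h
        exact ⟨z, rfl, h⟩
      · rintro ⟨z', h5, h6⟩
        exact (hq V G z' z h5).1 h6
    have h3 : (fun a b => X (f a) (g b)) = fun a b => O G (fun _ => ()) q (k + l)
        (mix (fun i => decide ((i : ℕ) < k))
        (fun i => if h : (i : ℕ) < k then fU (f a) ⟨i, h⟩ else Classical.arbitrary V)
        (fun i => if h : k ≤ (i : ℕ) then fW (g b) ⟨i - k, by omega⟩ else Classical.arbitrary V))
        ∈ {θ | ∃ z : Fin (k + l) → V, O G (fun _ => ()) q (k + l) z = θ ∧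
        Sat G φ (fun i => z (Fin.castAdd l i)) (fun i => z (Fin.natAdd k i))} := by
      funext a b
      exact propext (h2 a b)
    rw [h3]
    exact h1) ε hε
  obtain ⟨c, hc⟩ := key
  refine ⟨max c 1, fun n G hG X => ?_⟩
  have hc1 : (0 : ℝ) ≤ max c 1 := le_trans zero_le_one (le_max_right _ _)
  have hfin : (Un G φ).Finite := Set.toFinite _
  rcases Nat.eq_zero_or_pos n with hn | hn
  · subst hn
    refine ⟨fun _ => 1, fun _ => Or.inl rfl, fun b => ?_⟩
    have h1 : (X.filter (fun a => Sat G φ a b)).card ≤ (Un G φ).ncard := by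
      rw [← Set.ncard_coe_finset]
      refine Set.ncard_le_ncard ?_ hfin
      intro a ha
      exact ⟨b, (Finset.mem_filter.1 (Finset.mem_coe.1 ha)).2⟩
    have h2 : (Un G φ).ncard ≤ 1 := by
      haveI : Subsingleton (Fin k → Fin 0) := inferInstance
      exact Set.ncard_le_one_of_subsingleton _
    simp only [Finset.sum_const, smul_eq_mul, mul_one]
    rcases Nat.eq_zero_or_pos (Un G φ).ncard with h3 | h3
    · have h4 : (X.filter (fun a => Sat G φ a b)).card = 0 := by omega
      rw [h4]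
      simpa using mul_nonneg hc1 (Real.rpow_nonneg (Nat.cast_nonneg _) _)
    · have h4 : (Un G φ).ncard = 1 := by omega
      rw [h4]
      simp only [Nat.cast_one, Real.one_rpow, mul_one]
      have h5 : ((X.filter (fun a => Sat G φ a b)).card : ℝ) ≤ 1 := by
        have : (X.filter (fun a => Sat G φ a b)).card ≤ 1 := by omega
        exact_mod_cast this
      have h6 : (0 : ℝ) ≤ ((X.filter (fun a => Sat G φ a b)).card : ℝ) := Nat.cast_nonneg _
      refine le_trans ?_ (le_max_right c 1)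
      rw [abs_le]
      push_cast
      constructor <;> simp <;> linarith
  · haveI : Nonempty (Fin n) := ⟨⟨0, hn⟩⟩
    obtain ⟨χ, h1, h2⟩ := hc (Fin k → Fin n) (Fin l → Fin n) (Sat G φ)
      ⟨Fin n, inferInstance, inferInstance, G, id, id, hEx n G hG, fun _ _ => Iff.rfl⟩
      (X.filter (fun a => a ∈ Un G φ))
    refine ⟨χ, h1, fun b => ?_⟩
    have h3 : (X.filter (fun a => a ∈ Un G φ)).filter (fun a => Sat G φ a b) =
        X.filter (fun a => Sat G φ a b) := by
      ext a
      simp only [Finset.mem_filter]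
      constructor
      · rintro ⟨⟨ha, -⟩, hb⟩
        exact ⟨ha, hb⟩
      · rintro ⟨ha, hb⟩
        exact ⟨⟨ha, b, hb⟩, hb⟩
    have h4 := h2 b
    rw [h3] at h4
    refine h4.trans ?_
    have h5 : ((X.filter (fun a => a ∈ Un G φ)).card : ℝ) ≤ ((Un G φ).ncard : ℝ) := by
      have : (X.filter (fun a => a ∈ Un G φ)).card ≤ (Un G φ).ncard := by
        rw [← Set.ncard_coe_finset]
        refine Set.ncard_le_ncard ?_ hfin
        intro a ha
        exact (Finset.mem_filter.1 (Finset.mem_coe.1 ha)).2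
      exact_mod_cast this
    have h6 : ((X.filter (fun a => a ∈ Un G φ)).card : ℝ) ^ ε ≤ ((Un G φ).ncard : ℝ) ^ ε :=
      Real.rpow_le_rpow (Nat.cast_nonneg _) h5 hε.le
    calc c * ((X.filter (fun a => a ∈ Un G φ)).card : ℝ) ^ ε
        ≤ max c 1 * ((X.filter (fun a => a ∈ Un G φ)).card : ℝ) ^ ε :=
          mul_le_mul_of_nonneg_right (le_max_left _ _) (Real.rpow_nonneg (Nat.cast_nonneg _) _)
      _ ≤ max c 1 * ((Un G φ).ncard : ℝ) ^ ε := mul_le_mul_of_nonneg_left h6 hc1

theorem top (hA : S_A) (hB : S_B) (hMA : S_MA) (hFM : S_FM) (hVC : S_VC) (hCV : S_CV) : S_TOP :=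
  fun C hC => ⟨fun hN k l φ ε hε => forward hA hB hMA hFM hVC C hN k l φ ε hε,
    fun h => hCV C hC h⟩

end Pool.Agent.N627.ND
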